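import Mathlib

/-!
# The second symbolic power of the spanning tree ideal of `K_4` is not componentwise linear

Let `I` be the ideal of `K[x_0, …, x_5]` generated by the sixteen squarefree cubic monomials
corresponding to the spanning trees of the complete graph `K_4` (a matroidal, hence polymatroidal,
ideal). The degree four part of `I^(2)` is spanned by the three monomials of the 4-cycles of
`K_4`, that is, by `m_1 m_2`, `m_1 m_3`, `m_2 m_3` where `m_1, m_2, m_3` are the quadratic
monomials of the three perfect matchings. The ideal generated by them has no linear resolution.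
-/

set_option autoImplicit false

namespace Pool.Agent.Results.MP_d6f7e8_al.SpanningTreesK4

open MvPolynomial

/-- `I` is a polymatroidal ideal: it is generated by the monomials `x^u`, `u ∈ B`, where `B` is a
nonempty finite set of exponent vectors with the same coordinate sum which satisfies the exchange
property. -/
def IsPolymatroidal {K : Type*} [Field K] {n : ℕ} (I : Ideal (MvPolynomial (Fin n) K)) : Prop :=
  ∃ B : Finset (Fin n → ℕ), B.Nonempty ∧ (∃ d, ∀ u ∈ B, ∑ i, u i = d) ∧
    (∀ u ∈ B, ∀ v ∈ B, ∀ i, v i < u i → ∃ j, u j < v j ∧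
      Function.update (Function.update u i (u i - 1)) j (u j + 1) ∈ B) ∧
    I = Ideal.span {f | ∃ u ∈ B, f = ∏ i, X i ^ u i}

/-- `P` is an associated prime of (the module `S / I` of) the ideal `I`: a prime ideal of the form
`(I : f)`. -/
def IsAssociated {K : Type*} [Field K] {n : ℕ} (I P : Ideal (MvPolynomial (Fin n) K)) : Prop :=
  P.IsPrime ∧ ∃ f, ∀ s, s ∈ P ↔ s * f ∈ I

/-- The symbolic power `I^(k)`, the intersection of the ideals `I^k S_P ∩ S` over the associated
primes `P` of `I`; here `f ∈ I^k S_P ∩ S` if and only if `s f ∈ I^k` for some `s ∉ P`. -/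
noncomputable def symbolicPower {K : Type*} [Field K] {n : ℕ} (I : Ideal (MvPolynomial (Fin n) K)) (k : ℕ) :
    Ideal (MvPolynomial (Fin n) K) where
  carrier := {f | ∀ P, IsAssociated I P → ∃ s, s ∉ P ∧ s * f ∈ I ^ k}
  add_mem' := by
    intro f g hf hg P hP
    obtain ⟨s, hs, hsf⟩ := hf P hP
    obtain ⟨t, ht, htg⟩ := hg P hP
    refine ⟨s * t, fun h => (hP.1.mem_or_mem h).elim hs ht, ?_⟩
    have e : s * t * (f + g) = t * (s * f) + s * (t * g) := by ring
    rw [e]
    exact Ideal.add_mem _ (Ideal.mul_mem_left _ _ hsf) (Ideal.mul_mem_left _ _ htg)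
  zero_mem' := by
    intro P hP
    exact ⟨1, fun h => hP.1.ne_top ((Ideal.eq_top_iff_one _).2 h), by simp⟩
  smul_mem' := by
    intro c f hf P hP
    obtain ⟨s, hs, hsf⟩ := hf P hP
    refine ⟨s, hs, ?_⟩
    have e : s * (c • f) = c * (s * f) := by
      rw [smul_eq_mul]
      ring
    rw [e]
    exact Ideal.mul_mem_left _ _ hsf

/-- The ideal `J_⟨j⟩` generated by the homogeneous elements of `J` of degree `j`. -/
noncomputable def component {K : Type*} [Field K] {n : ℕ} (J : Ideal (MvPolynomial (Fin n) K)) (j : ℕ) :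
    Ideal (MvPolynomial (Fin n) K) :=
  Ideal.span {f | f ∈ J ∧ f.IsHomogeneous j}

/-- The ideal `J` (generated in degree `j`) has a linear free resolution
`⋯ → S^(b 2) → S^(b 1) → S^(b 0) → J → 0`: the map to `J` is given by forms `g` of degree `j`, and
all other maps are given by matrices `D i` of linear forms. (Such a resolution is minimal.) -/
def HasLinearResolution {K : Type*} [Field K] {n : ℕ} (J : Ideal (MvPolynomial (Fin n) K))
    (j : ℕ) : Prop :=
  ∃ (b : ℕ → ℕ) (g : Fin (b 0) → MvPolynomial (Fin n) K)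
    (D : (i : ℕ) → Matrix (Fin (b i)) (Fin (b (i + 1))) (MvPolynomial (Fin n) K)),
    (∀ l, (g l).IsHomogeneous j) ∧ Ideal.span (Set.range g) = J ∧
    (∀ i l m, (D i l m).IsHomogeneous 1) ∧
    (∀ w : Fin (b 0) → MvPolynomial (Fin n) K,
      ∑ l, w l * g l = 0 ↔ ∃ v, w = (D 0).mulVec v) ∧
    (∀ i (w : Fin (b (i + 1)) → MvPolynomial (Fin n) K),
      (D i).mulVec w = 0 ↔ ∃ v, w = (D (i + 1)).mulVec v)

/-- `J` is componentwise linear: every `J_⟨j⟩` has a linear resolution. -/
def ComponentwiseLinear {K : Type*} [Field K] {n : ℕ} (J : Ideal (MvPolynomial (Fin n) K)) :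
    Prop :=
  ∀ j, HasLinearResolution (component J j) j

section graph

/-- The spanning trees of `K_4`, whose edges are numbered `0 = 12`, `1 = 34`, `2 = 13`, `3 = 24`,
`4 = 14`, `5 = 23`: all triples of edges except the four triangles. -/
def trees : Finset (Finset (Fin 6)) :=
  (Finset.powersetCard 3 Finset.univ) \ {{0, 2, 5}, {0, 3, 4}, {1, 2, 4}, {1, 3, 5}}

/-- The seven minimal cuts of `K_4`. -/
def cuts : Finset (Finset (Fin 6)) :=
  {{0, 2, 4}, {0, 3, 5}, {1, 2, 5}, {1, 3, 4}, {2, 3, 4, 5}, {0, 1, 4, 5}, {0, 1, 2, 3}}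

/-- The characteristic vector of a set of edges. -/
def ind (T : Finset (Fin 6)) : Fin 6 → ℕ := fun i => if i ∈ T then 1 else 0

theorem tree_meets_cut : ∀ T ∈ trees, ∀ C ∈ cuts, ∃ i ∈ C, i ∈ T := by decide +kernel

theorem tree_of_transversal : ∀ A : Finset (Fin 6), (∀ C ∈ cuts, ∃ i ∈ C, i ∈ A) →
    ∃ T ∈ trees, T ⊆ A := by decide +kernel

theorem exchange_trees : ∀ T ∈ trees, ∀ T' ∈ trees, ∀ i ∈ T \ T', ∃ j ∈ T' \ T,
    insert j (T.erase i) ∈ trees := by decide +kernel

theorem hyperplane_tree : ∀ C ∈ cuts, ∀ i ∈ C, ∃ T ∈ trees, T ⊆ insert i (Finset.univ \ C) := by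
  decide +kernel

/-- The three 4-cycles. -/
def cycles : Fin 3 → Finset (Fin 6) := ![{0, 1, 2, 3}, {0, 1, 4, 5}, {2, 3, 4, 5}]

theorem cycle_split : ∀ s : Fin 3, ∀ C ∈ cuts, ∃ i j : Fin 6, i ∉ C ∧ j ∉ C ∧
    ∃ T ∈ trees, ∃ T' ∈ trees, ∀ l : Fin 6,
      (if l ∈ T then 1 else 0) + (if l ∈ T' then 1 else 0) =
        (if l = i then 1 else 0) + (if l = j then 1 else 0) +
          (if l ∈ cycles s then 1 else 0 : ℕ) := by decide +kernel

end graph

section algebra

variable {K : Type*} [Field K]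

/-- The monomial of a set of edges. -/
noncomputable def mon (K : Type*) [Field K] (T : Finset (Fin 6)) : MvPolynomial (Fin 6) K :=
  ∏ i ∈ T, X i

theorem mon_eq (T : Finset (Fin 6)) : mon K T = ∏ i, X i ^ ind T i := by
  unfold mon ind
  simp [pow_ite, Finset.prod_ite_mem]

/-- The ideal of the spanning trees of `K_4`. -/
noncomputable def treeIdeal (K : Type*) [Field K] : Ideal (MvPolynomial (Fin 6) K) :=
  Ideal.span {f | ∃ T ∈ trees, f = mon K T}

theorem mon_mem {T : Finset (Fin 6)} (hT : T ∈ trees) : mon K T ∈ treeIdeal K :=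
  Ideal.subset_span ⟨T, hT, rfl⟩

theorem treeIdeal_polymatroidal : IsPolymatroidal (treeIdeal K) := by
  refine ⟨trees.image ind, ?_, ⟨3, ?_⟩, ?_, ?_⟩
  · exact ⟨ind {0, 1, 2}, Finset.mem_image.2 ⟨{0, 1, 2}, by decide +kernel, rfl⟩⟩
  · intro u hu
    obtain ⟨T, hT, rfl⟩ := Finset.mem_image.1 hu
    have h1 : ∀ T ∈ trees, ∑ i, ind T i = 3 := by decide +kernel
    exact h1 T hT
  · intro u hu v hv i hi
    obtain ⟨T, hT, rfl⟩ := Finset.mem_image.1 hu
    obtain ⟨T', hT', rfl⟩ := Finset.mem_image.1 hv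
    have hiT : i ∈ T \ T' := by
      rw [Finset.mem_sdiff]
      unfold ind at hi
      split_ifs at hi with h1 h2 h2
      · omega
      · omega
      · exact ⟨h2, h1⟩
      · omega
    obtain ⟨j, hj, hB⟩ := exchange_trees T hT T' hT' i hiT
    rw [Finset.mem_sdiff] at hj hiT
    refine ⟨j, ?_, ?_⟩
    · simp [ind, hj.1, hj.2]
    · refine Finset.mem_image.2 ⟨_, hB, ?_⟩
      have hij : i ≠ j := by
        rintro rfl
        exact hj.2 hiT.1
      funext l
      by_cases hlj : l = j
      · subst hlj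
        simp [ind, hj.2]
      · rw [Function.update_of_ne hlj]
        by_cases hli : l = i
        · subst hli
          simp [ind, hij, hiT.1]
        · rw [Function.update_of_ne hli]
          simp [ind, hlj, hli]
  · unfold treeIdeal
    congr 1
    ext f
    simp only [Set.mem_ofPred_eq, Finset.mem_image]
    constructor
    · rintro ⟨T, hT, rfl⟩
      exact ⟨ind T, ⟨T, hT, rfl⟩, mon_eq T⟩
    · rintro ⟨_, ⟨T, hT, rfl⟩, rfl⟩
      exact ⟨T, hT, (mon_eq T).symm⟩

/-- The variables of `C` are multiplied by a new variable. -/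
noncomputable def tw (K : Type*) [Field K] (C : Finset (Fin 6)) :
    MvPolynomial (Fin 6) K →ₐ[K] Polynomial (MvPolynomial (Fin 6) K) :=
  aeval fun i => if i ∈ C then Polynomial.C (X i) * Polynomial.X else Polynomial.C (X i)

theorem tw_monomial (C : Finset (Fin 6)) (u : Fin 6 →₀ ℕ) (c : K) :
    tw K C (monomial u c) = Polynomial.monomial (∑ i ∈ C, u i) (monomial u c) := by
  unfold tw
  rw [aeval_monomial, Finsupp.prod_fintype _ _ (fun i => pow_zero _)]
  have h1 : ∀ i : Fin 6, (if i ∈ C then Polynomial.C (X i : MvPolynomial (Fin 6) K) *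
      Polynomial.X else Polynomial.C (X i)) ^ u i =
      Polynomial.C (X i ^ u i) * (if i ∈ C then Polynomial.X ^ u i else 1) := by
    intro i
    split_ifs
    · rw [mul_pow, map_pow]
    · rw [map_pow, mul_one]
  rw [Finset.prod_congr rfl fun i _ => h1 i, Finset.prod_mul_distrib, ← map_prod,
    Finset.prod_ite_mem, Finset.univ_inter, Finset.prod_pow_eq_pow_sum]
  rw [← Polynomial.C_mul_X_pow_eq_monomial, monomial_eq,
    Finsupp.prod_fintype _ _ (fun i => pow_zero _), map_mul]
  rw [mul_assoc]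
  rfl

theorem coeff_tw (C : Finset (Fin 6)) (f : MvPolynomial (Fin 6) K) (u : Fin 6 →₀ ℕ) (m : ℕ) :
    coeff u ((tw K C f).coeff m) = if ∑ i ∈ C, u i = m then coeff u f else 0 := by
  classical
  induction f using MvPolynomial.induction_on' with
  | monomial v c =>
    rw [tw_monomial, Polynomial.coeff_monomial]
    by_cases h : ∑ i ∈ C, v i = m
    · rw [if_pos h, coeff_monomial]
      by_cases h2 : v = u
      · subst h2
        rw [if_pos h]
      · rw [if_neg h2]
        simp
    · rw [if_neg h, coeff_zero, coeff_monomial]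
      by_cases h2 : v = u
      · subst h2
        rw [if_neg h]
      · rw [if_neg h2]
        simp
  | add p q hp hq =>
    rw [map_add, Polynomial.coeff_add, coeff_add, hp, hq, coeff_add]
    split_ifs <;> simp

theorem le_of_coeff_zero (C : Finset (Fin 6)) (f : MvPolynomial (Fin 6) K) (m : ℕ)
    (h : ∀ d < m, (tw K C f).coeff d = 0) (u : Fin 6 →₀ ℕ) (hu : u ∈ f.support) :
    m ≤ ∑ i ∈ C, u i := by
  by_contra hlt
  push Not at hlt
  have h1 := coeff_tw C f u (∑ i ∈ C, u i)
  rw [h _ hlt, coeff_zero, if_pos rfl] at h1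
  exact (mem_support_iff.1 hu) h1.symm

/-- The prime ideal generated by the variables in `C`. -/
noncomputable def cutPrime (K : Type*) [Field K] (C : Finset (Fin 6)) :
    Ideal (MvPolynomial (Fin 6) K) :=
  RingHom.ker ((Polynomial.constantCoeff).comp (tw K C).toRingHom)

theorem mem_cutPrime (C : Finset (Fin 6)) (f : MvPolynomial (Fin 6) K) :
    f ∈ cutPrime K C ↔ (tw K C f).coeff 0 = 0 := by
  unfold cutPrime
  rw [RingHom.mem_ker]
  rfl

theorem cutPrime_prime (C : Finset (Fin 6)) : (cutPrime K C).IsPrime := RingHom.ker_isPrime _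

theorem X_mem_cutPrime {C : Finset (Fin 6)} {i : Fin 6} (hi : i ∈ C) : X i ∈ cutPrime K C := by
  rw [mem_cutPrime]
  simp [tw, hi]

theorem X_notMem_cutPrime {C : Finset (Fin 6)} {i : Fin 6} (hi : i ∉ C) :
    X i ∉ cutPrime K C := by
  rw [mem_cutPrime]
  simp [tw, hi]

theorem treeIdeal_le {C : Finset (Fin 6)} (hC : C ∈ cuts) : treeIdeal K ≤ cutPrime K C := by
  unfold treeIdeal
  rw [Ideal.span_le]
  rintro _ ⟨T, hT, rfl⟩
  obtain ⟨i, hiC, hiT⟩ := tree_meets_cut T hT C hC
  exact Ideal.mem_of_dvd _ (Finset.dvd_prod_of_mem _ hiT) (X_mem_cutPrime hiC)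

theorem mon_notMem {C A : Finset (Fin 6)} (h : ∀ i ∈ A, i ∉ C) : mon K A ∉ cutPrime K C := by
  intro hm
  obtain ⟨i, hi, him⟩ := ((cutPrime_prime (K := K) C).prod_mem_iff).1 hm
  exact X_notMem_cutPrime (h i hi) him

theorem mon_dvd_mon {A B : Finset (Fin 6)} (h : A ⊆ B) : mon K A ∣ mon K B :=
  Finset.prod_dvd_prod_of_subset _ _ _ h

theorem mon_dvd_monomial {A : Finset (Fin 6)} {u : Fin 6 →₀ ℕ} (h : ∀ i ∈ A, u i ≠ 0) (c : K) :
    mon K A ∣ monomial u c := by
  rw [mon_eq, monomial_eq, Finsupp.prod_fintype _ _ (fun i => pow_zero _)]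
  apply Dvd.dvd.mul_left
  apply Finset.prod_dvd_prod_of_dvd
  intro i _
  unfold ind
  split_ifs with hi
  · exact pow_dvd_pow _ (Nat.one_le_iff_ne_zero.2 (h i hi))
  · exact pow_dvd_pow _ (Nat.zero_le _)

theorem associated_cut {C : Finset (Fin 6)} (hC : C ∈ cuts) :
    IsAssociated (treeIdeal K) (cutPrime K C) := by
  refine ⟨cutPrime_prime C, mon K (Finset.univ \ C), fun s => ⟨fun hs => ?_, fun hs => ?_⟩⟩
  · rw [mem_cutPrime] at hs
    rw [s.as_sum, Finset.sum_mul]
    refine Ideal.sum_mem _ fun u hu => ?_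
    have h1 := le_of_coeff_zero C s 1 (fun d hd => by
      have : d = 0 := by omega
      rw [this, hs]) u hu
    obtain ⟨i, hi, hiu⟩ : ∃ i ∈ C, u i ≠ 0 := by
      by_contra hcon
      push Not at hcon
      rw [Finset.sum_eq_zero hcon] at h1
      omega
    obtain ⟨T, hT, hTs⟩ := hyperplane_tree C hC i hi
    refine Ideal.mem_of_dvd _ ?_ (mon_mem hT)
    refine (mon_dvd_mon hTs).trans ?_
    have h2 : mon K (insert i (Finset.univ \ C)) = X i * mon K (Finset.univ \ C) := by
      unfold mon
      rw [Finset.prod_insert (by simp [hi])]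
    rw [h2]
    apply mul_dvd_mul_right
    have h3 := mon_dvd_monomial (K := K) (A := {i}) (u := u) (by
      intro l hl
      rw [Finset.mem_singleton] at hl
      rw [hl]
      exact hiu) (coeff u s)
    unfold mon at h3
    rwa [Finset.prod_singleton] at h3
  · exact ((cutPrime_prime C).mem_or_mem (treeIdeal_le hC hs)).resolve_right
      (mon_notMem fun i hi => (Finset.mem_sdiff.1 hi).2)

theorem weight_ge_two {f : MvPolynomial (Fin 6) K} (hf : f ∈ symbolicPower (treeIdeal K) 2)
    {C : Finset (Fin 6)} (hC : C ∈ cuts) (u : Fin 6 →₀ ℕ) (hu : u ∈ f.support) :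
    2 ≤ ∑ i ∈ C, u i := by
  obtain ⟨s, hs, hsf⟩ := hf _ (associated_cut hC)
  have h1 : treeIdeal K ≤ Ideal.comap (tw K C) (Ideal.span {Polynomial.X}) := by
    intro g hg
    rw [Ideal.mem_comap, Ideal.mem_span_singleton, Polynomial.X_dvd_iff, ← mem_cutPrime]
    exact treeIdeal_le hC hg
  have h2 : (treeIdeal K) ^ 2 ≤ Ideal.comap (tw K C) (Ideal.span {Polynomial.X} ^ 2) :=
    (Ideal.pow_right_mono h1 2).trans (Ideal.le_comap_pow _ 2)
  have h3 := h2 hsf
  rw [Ideal.mem_comap, Ideal.span_singleton_pow, Ideal.mem_span_singleton, map_mul] at h3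
  have h4 : ¬ Polynomial.X ∣ tw K C s := by
    rw [Polynomial.X_dvd_iff, ← mem_cutPrime]
    exact hs
  have h5 := Polynomial.prime_X.pow_dvd_of_dvd_mul_left 2 h4 h3
  rw [Polynomial.X_pow_dvd_iff] at h5
  exact le_of_coeff_zero C f 2 h5 u hu

/-- The monomials of the three 4-cycles. -/
noncomputable def G (K : Type*) [Field K] (s : Fin 3) : MvPolynomial (Fin 6) K :=
  mon K (cycles s)

theorem G_homogeneous (s : Fin 3) : (G K s).IsHomogeneous 4 := by
  have h1 : (∑ i ∈ cycles s, 1) = 4 := by
    revert s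
    decide
  rw [← h1]
  exact IsHomogeneous.prod _ _ _ fun i _ => isHomogeneous_X K i

theorem G_mem_symbolic (s : Fin 3) : G K s ∈ symbolicPower (treeIdeal K) 2 := by
  rintro P ⟨hP, f, hf⟩
  have hfI : f ∉ treeIdeal K := by
    intro h
    apply hP.ne_top
    rw [Ideal.eq_top_iff_one, hf, one_mul]
    exact h
  obtain ⟨C, hC, hfC⟩ : ∃ C ∈ cuts, f ∉ cutPrime K C := by
    by_contra hcon
    push Not at hcon
    apply hfI
    rw [f.as_sum]
    refine Ideal.sum_mem _ fun u hu => ?_
    obtain ⟨T, hT, hTs⟩ := tree_of_transversal (Finset.univ.filter fun i => u i ≠ 0) (by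
      intro C hC
      have h1 := le_of_coeff_zero C f 1 (fun d hd => by
        have : d = 0 := by omega
        rw [this, ← mem_cutPrime]
        exact hcon C hC) u hu
      by_contra hcon2
      push Not at hcon2
      have h2 : ∀ i ∈ C, u i = 0 := by
        intro i hi
        have := hcon2 i hi
        simpa using this
      rw [Finset.sum_eq_zero h2] at h1
      omega)
    refine Ideal.mem_of_dvd _ (mon_dvd_monomial (fun i hi => ?_) _) (mon_mem hT)
    have := hTs hi
    simpa using this
  have hPC : P ≤ cutPrime K C := by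
    intro t ht
    exact ((cutPrime_prime C).mem_or_mem (treeIdeal_le hC ((hf t).1 ht))).resolve_right hfC
  obtain ⟨i, j, hi, hj, T, hT, T', hT', hl⟩ := cycle_split s C hC
  refine ⟨X i * X j, fun h => ?_, ?_⟩
  · exact ((cutPrime_prime C).mem_or_mem (hPC h)).elim (X_notMem_cutPrime hi)
      (X_notMem_cutPrime hj)
  · have h1 : ∀ i : Fin 6, (X i : MvPolynomial (Fin 6) K) =
        ∏ l, X l ^ (if l = i then 1 else 0 : ℕ) := by
      intro i
      simp [pow_ite, Finset.prod_ite_eq']
    have h2 : X i * X j * G K s = mon K T * mon K T' := by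
      unfold G
      rw [h1 i, h1 j, mon_eq, mon_eq, mon_eq, ← Finset.prod_mul_distrib,
        ← Finset.prod_mul_distrib, ← Finset.prod_mul_distrib]
      refine Finset.prod_congr rfl fun l _ => ?_
      rw [← pow_add, ← pow_add, ← pow_add]
      congr 1
      exact (hl l).symm
    rw [h2, pow_two]
    exact Ideal.mul_mem_mul (mon_mem hT) (mon_mem hT')

theorem ind_cycles : ∀ (s : Fin 3) (i : Fin 6), ind (cycles s) i =
    (![![1, 1, 1, 1, 0, 0], ![1, 1, 0, 0, 1, 1], ![0, 0, 1, 1, 1, 1]] : Fin 3 → Fin 6 → ℕ) s i := by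
  decide +kernel

theorem exponent_cases (u : Fin 6 →₀ ℕ) (hd : ∑ i, u i = 4) (h : ∀ C ∈ cuts, 2 ≤ ∑ i ∈ C, u i) :
    ∃ s : Fin 3, ∀ i, u i = ind (cycles s) i := by
  have c0 := h {0, 2, 4} (by decide)
  have c1 := h {0, 3, 5} (by decide)
  have c2 := h {1, 2, 5} (by decide)
  have c3 := h {1, 3, 4} (by decide)
  have c4 := h {2, 3, 4, 5} (by decide)
  have c5 := h {0, 1, 4, 5} (by decide)
  have c6 := h {0, 1, 2, 3} (by decide)
  simp [Finset.sum_insert] at c0 c1 c2 c3 c4 c5 c6
  rw [Fin.sum_univ_six] at hd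
  have key : (u 0 = 1 ∧ u 1 = 1 ∧ u 2 = 1 ∧ u 3 = 1 ∧ u 4 = 0 ∧ u 5 = 0) ∨
      (u 0 = 1 ∧ u 1 = 1 ∧ u 2 = 0 ∧ u 3 = 0 ∧ u 4 = 1 ∧ u 5 = 1) ∨
      (u 0 = 0 ∧ u 1 = 0 ∧ u 2 = 1 ∧ u 3 = 1 ∧ u 4 = 1 ∧ u 5 = 1) := by
    omega
  rcases key with ⟨h0, h1, h2, h3, h4, h5⟩ | ⟨h0, h1, h2, h3, h4, h5⟩ |
    ⟨h0, h1, h2, h3, h4, h5⟩
  · refine ⟨0, fun i => ?_⟩
    rw [ind_cycles]
    fin_cases i <;> simp [h0, h1, h2, h3, h4, h5]
  · refine ⟨1, fun i => ?_⟩
    rw [ind_cycles]
    fin_cases i <;> simp [h0, h1, h2, h3, h4, h5]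
  · refine ⟨2, fun i => ?_⟩
    rw [ind_cycles]
    fin_cases i <;> simp [h0, h1, h2, h3, h4, h5]

theorem component_eq : component (symbolicPower (treeIdeal K) 2) 4 =
    Ideal.span (Set.range (G K)) := by
  apply le_antisymm
  · unfold component
    rw [Ideal.span_le]
    rintro f ⟨hf, hf4⟩
    rw [SetLike.mem_coe, f.as_sum]
    refine Ideal.sum_mem _ fun u hu => ?_
    have hd : ∑ i, u i = 4 := by
      have h1 := hf4 (mem_support_iff.1 hu)
      rw [← h1]
      simp [Finsupp.weight_apply, Finsupp.sum_fintype]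
    obtain ⟨s, hs⟩ := exponent_cases u hd fun C hC => weight_ge_two hf hC u hu
    have h3 : (∏ i, (X i : MvPolynomial (Fin 6) K) ^ u i) = G K s := by
      unfold G
      rw [mon_eq]
      exact Finset.prod_congr rfl fun i _ => by rw [hs i]
    have h2 : monomial u (coeff u f) = MvPolynomial.C (coeff u f) * G K s := by
      rw [← h3, monomial_eq, Finsupp.prod_fintype _ _ (fun i => pow_zero _)]
    rw [h2]
    exact Ideal.mul_mem_left _ _ (Ideal.subset_span ⟨s, rfl⟩)
  · rw [Ideal.span_le]
    rintro _ ⟨s, rfl⟩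
    exact Ideal.subset_span ⟨G_mem_symbolic s, G_homogeneous s⟩

/-- The degree `d` part of `h * g` for a form `g` of degree `d`. -/
theorem component_mul {g : MvPolynomial (Fin 6) K} {d : ℕ} (hg : g.IsHomogeneous d)
    (h : MvPolynomial (Fin 6) K) :
    homogeneousComponent d (h * g) = MvPolynomial.C (constantCoeff h) * g := by
  induction h using MvPolynomial.induction_on' with
  | monomial u c =>
    have h1 : (monomial u c * g).IsHomogeneous (u.degree + d) :=
      (isHomogeneous_monomial c rfl).mul hg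
    rw [homogeneousComponent_of_mem h1]
    by_cases hu : u = 0
    · subst hu
      simp
    · have h2 : u.degree ≠ 0 := by
        intro h3
        exact hu ((Finsupp.degree_eq_zero_iff u).1 h3)
      have h3 : d ≠ u.degree + d := by omega
      rw [if_neg h3]
      have h4 : constantCoeff (monomial u c) = 0 := by
        rw [constantCoeff_monomial, if_neg hu]
      rw [h4, map_zero, zero_mul]
  | add p q hp hq =>
    rw [add_mul, map_add, hp, hq, map_add, map_add, add_mul]

theorem G0 : G K 0 = X 0 * X 1 * (X 2 * X 3) := by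
  simp [G, mon, cycles, Finset.prod_insert]
  ring

theorem G1 : G K 1 = X 0 * X 1 * (X 4 * X 5) := by
  simp [G, mon, cycles, Finset.prod_insert]
  ring

theorem G2 : G K 2 = X 2 * X 3 * (X 4 * X 5) := by
  simp [G, mon, cycles, Finset.prod_insert]
  ring

theorem eq_zero_of_dvd {i j : Fin 6} {τ : MvPolynomial (Fin 6) K} (hτ : τ.IsHomogeneous 1)
    (h : X i * X j ∣ τ) : τ = 0 := by
  by_contra hne
  obtain ⟨q, hq⟩ := h
  have hq0 : q ≠ 0 := by
    rintro rfl
    exact hne (by rw [hq, mul_zero])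
  have h1 : τ.totalDegree ≤ 1 := hτ.totalDegree_le
  have h2 : τ.totalDegree = 2 + q.totalDegree := by
    rw [hq, mul_assoc, totalDegree_mul_of_isDomain (X_ne_zero i)
      (mul_ne_zero (X_ne_zero j) hq0), totalDegree_mul_of_isDomain (X_ne_zero j) hq0,
      totalDegree_X, totalDegree_X]
    ring
  omega

theorem X_dvd_cancel {i : Fin 6} {p q : MvPolynomial (Fin 6) K} (h : X i ∣ p * q)
    (hq : ¬ X i ∣ q) : X i ∣ p :=
  ((X_prime (R := K) (i := i)).dvd_or_dvd h).resolve_right hq

theorem not_X_dvd {i : Fin 6} {q : MvPolynomial (Fin 6) K} (v : Fin 6 → K) (hv : v i = 0)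
    (hq : eval v q ≠ 0) : ¬ X i ∣ q := by
  rintro ⟨r, rfl⟩
  rw [map_mul, eval_X, hv, zero_mul] at hq
  exact hq rfl

/-- The two quadratic monomials are coprime, so their product divides. -/
theorem dvd_of_two {i j : Fin 6} (hij : i ≠ j) {τ q : MvPolynomial (Fin 6) K}
    (h : X i * X j ∣ τ * q) (hi : ¬ X i ∣ q) (hj : ¬ X j ∣ q) : X i * X j ∣ τ := by
  have h1 : X i ∣ τ := X_dvd_cancel ((dvd_mul_right _ _).trans h) hi
  have h2 : X j ∣ τ := X_dvd_cancel ((dvd_mul_left _ _).trans h) hj
  obtain ⟨r, rfl⟩ := h1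
  have h3 : X j ∣ r := by
    refine ((X_prime (R := K) (i := j)).dvd_or_dvd h2).resolve_left ?_
    refine not_X_dvd (fun l => if l = j then 0 else 1) (by simp) ?_
    rw [eval_X, if_neg hij]
    exact one_ne_zero
  exact mul_dvd_mul_left _ h3

/-- There are no linear syzygies. -/
theorem no_linear_syzygy (τ : Fin 3 → MvPolynomial (Fin 6) K) (hτ : ∀ s, (τ s).IsHomogeneous 1)
    (h : ∑ s, τ s * G K s = 0) : ∀ s, τ s = 0 := by
  rw [Fin.sum_univ_three, G0, G1, G2] at h
  have h2 : τ 2 = 0 := by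
    apply eq_zero_of_dvd (hτ 2) (i := 0) (j := 1)
    apply dvd_of_two (by decide) (q := X 2 * X 3 * (X 4 * X 5))
    · exact ⟨-(τ 0 * (X 2 * X 3) + τ 1 * (X 4 * X 5)), by linear_combination h⟩
    · exact not_X_dvd ![0, 1, 1, 1, 1, 1] (by simp) (by simp)
    · exact not_X_dvd ![1, 0, 1, 1, 1, 1] (by simp) (by simp)
  have h1 : τ 1 = 0 := by
    apply eq_zero_of_dvd (hτ 1) (i := 2) (j := 3)
    apply dvd_of_two (by decide) (q := X 0 * X 1 * (X 4 * X 5))
    · exact ⟨-(τ 0 * (X 0 * X 1)), by linear_combination h - h2 * (X 2 * X 3 * (X 4 * X 5))⟩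
    · exact not_X_dvd ![1, 1, 0, 1, 1, 1] (by simp) (by simp)
    · exact not_X_dvd ![1, 1, 1, 0, 1, 1] (by simp) (by simp)
  have h0 : τ 0 = 0 := by
    have h3 : τ 0 * (X 0 * X 1 * (X 2 * X 3)) = 0 := by
      linear_combination h - h2 * (X 2 * X 3 * (X 4 * X 5)) - h1 * (X 0 * X 1 * (X 4 * X 5))
    rcases mul_eq_zero.1 h3 with h4 | h4
    · exact h4
    · exfalso
      have := congrArg (eval (fun _ => (1 : K))) h4
      simp at this
  intro s
  fin_cases s
  · exact h0
  · exact h1
  · exact h2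

theorem G_independent (c : Fin 3 → K) (h : ∑ s, MvPolynomial.C (c s) * G K s = 0) :
    ∀ s, c s = 0 := by
  rw [Fin.sum_univ_three, G0, G1, G2] at h
  intro s
  fin_cases s
  · have := congrArg (eval ![1, 1, 1, 1, 0, 0]) h
    simpa using this
  · have := congrArg (eval ![1, 1, 0, 0, 1, 1]) h
    simpa using this
  · have := congrArg (eval ![0, 0, 1, 1, 1, 1]) h
    simpa using this

theorem not_linear (J : Ideal (MvPolynomial (Fin 6) K)) (hJ : J = Ideal.span (Set.range (G K))) :
    ¬ HasLinearResolution J 4 := by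
  rintro ⟨b, F, D, hF, hspan, hD, hker, -⟩
  rw [hJ] at hspan
  -- the generators `F` in terms of `G`
  have h1 : ∀ l, ∃ c : Fin 3 → K, F l = ∑ s, MvPolynomial.C (c s) * G K s := by
    intro l
    have h2 : F l ∈ Ideal.span (Set.range (G K)) := by
      rw [← hspan]
      exact Ideal.subset_span ⟨l, rfl⟩
    obtain ⟨h, hh⟩ := (Ideal.mem_span_range_iff_exists_fun).1 h2
    refine ⟨fun s => constantCoeff (h s), ?_⟩
    have h3 : homogeneousComponent 4 (F l) = F l := by
      rw [homogeneousComponent_of_mem (hF l), if_pos rfl]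
    rw [← h3, ← hh, map_sum]
    exact Finset.sum_congr rfl fun s _ => component_mul (G_homogeneous s) _
  choose c hc using h1
  -- the `G` in terms of `F`
  have h4 : ∀ s, ∃ e : Fin (b 0) → K, G K s = ∑ l, MvPolynomial.C (e l) * F l := by
    intro s
    have h2 : G K s ∈ Ideal.span (Set.range F) := by
      rw [hspan]
      exact Ideal.subset_span ⟨s, rfl⟩
    obtain ⟨h, hh⟩ := (Ideal.mem_span_range_iff_exists_fun).1 h2
    refine ⟨fun l => constantCoeff (h l), ?_⟩
    have h3 : homogeneousComponent 4 (G K s) = G K s := by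
      rw [homogeneousComponent_of_mem (G_homogeneous s), if_pos rfl]
    rw [← h3, ← hh, map_sum]
    exact Finset.sum_congr rfl fun l _ => component_mul (hF l) _
  choose e he using h4
  -- the two matrices are inverse to each other on one side
  have hec : ∀ s t, ∑ l, e s l * c l t = if s = t then 1 else 0 := by
    intro s t
    have h5 : ∑ t, MvPolynomial.C ((∑ l, e s l * c l t) - if s = t then 1 else 0) * G K t = 0 := by
      have h6 : G K s = ∑ t, MvPolynomial.C (∑ l, e s l * c l t) * G K t := by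
        conv_lhs => rw [he s]
        have h7 : ∀ l, MvPolynomial.C (e s l) * F l =
            ∑ t, MvPolynomial.C (e s l * c l t) * G K t := by
          intro l
          rw [hc l, Finset.mul_sum]
          exact Finset.sum_congr rfl fun t _ => by rw [map_mul, mul_assoc]
        rw [Finset.sum_congr rfl fun l _ => h7 l, Finset.sum_comm]
        refine Finset.sum_congr rfl fun t _ => ?_
        rw [map_sum, Finset.sum_mul]
      have h8 : ∀ t, MvPolynomial.C ((∑ l, e s l * c l t) - if s = t then 1 else 0) * G K t =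
          MvPolynomial.C (∑ l, e s l * c l t) * G K t - (if s = t then G K t else 0) := by
        intro t
        rw [map_sub, sub_mul]
        congr 1
        split_ifs
        · rw [map_one, one_mul]
        · rw [map_zero, zero_mul]
      rw [Finset.sum_congr rfl fun t _ => h8 t, Finset.sum_sub_distrib, ← h6]
      simp
    have h9 := G_independent _ h5 t
    exact sub_eq_zero.1 h9
  -- the columns of the first matrix give linear syzygies of the `G`
  have hcol : ∀ m s, ∑ l, D 0 l m * MvPolynomial.C (c l s) = 0 := by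
    intro m
    apply no_linear_syzygy
    · intro s
      refine IsHomogeneous.sum _ _ _ fun l _ => ?_
      have := (hD 0 l m).mul (isHomogeneous_C (Fin 6) (c l s))
      simpa using this
    · have h5 : ∑ l, D 0 l m * F l = 0 := by
        rw [hker]
        refine ⟨Pi.single m 1, ?_⟩
        funext l
        rw [Matrix.mulVec_single_one]
        rfl
      rw [← h5]
      have h6 : ∀ l, D 0 l m * F l = ∑ s, D 0 l m * MvPolynomial.C (c l s) * G K s := by
        intro l
        rw [hc l, Finset.mul_sum]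
        exact Finset.sum_congr rfl fun s _ => by rw [mul_assoc]
      rw [Finset.sum_congr rfl fun l _ => h6 l, Finset.sum_comm]
      exact Finset.sum_congr rfl fun s _ => Finset.sum_mul _ _ _
  -- the quadratic syzygy
  let w : Fin (b 0) → MvPolynomial (Fin 6) K := fun l =>
    X 4 * X 5 * MvPolynomial.C (e 0 l) - X 2 * X 3 * MvPolynomial.C (e 1 l)
  have hw : ∑ l, w l * F l = 0 := by
    have h5 : ∑ l, w l * F l = X 4 * X 5 * G K 0 - X 2 * X 3 * G K 1 := by
      rw [he 0, he 1, Finset.mul_sum, Finset.mul_sum, ← Finset.sum_sub_distrib]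
      exact Finset.sum_congr rfl fun l _ => by
        simp only [w]
        ring
    rw [h5, G0, G1]
    ring
  obtain ⟨v, hv⟩ := (hker w).1 hw
  have h10 : ∑ l, w l * MvPolynomial.C (c l 0) = 0 := by
    have h5 : ∀ l, w l * MvPolynomial.C (c l 0) =
        ∑ m, (D 0 l m * MvPolynomial.C (c l 0)) * v m := by
      intro l
      rw [hv, Matrix.mulVec, dotProduct, Finset.sum_mul]
      exact Finset.sum_congr rfl fun m _ => by ring
    rw [Finset.sum_congr rfl fun l _ => h5 l, Finset.sum_comm]
    refine Finset.sum_eq_zero fun m _ => ?_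
    rw [← Finset.sum_mul, hcol m 0, zero_mul]
  have h11 : ∑ l, w l * MvPolynomial.C (c l 0) = X 4 * X 5 := by
    have h5 : ∀ l, w l * MvPolynomial.C (c l 0) =
        X 4 * X 5 * MvPolynomial.C (e 0 l * c l 0) - X 2 * X 3 * MvPolynomial.C (e 1 l * c l 0) := by
      intro l
      simp only [w, map_mul]
      ring
    rw [Finset.sum_congr rfl fun l _ => h5 l, Finset.sum_sub_distrib, ← Finset.mul_sum,
      ← Finset.mul_sum, ← map_sum, ← map_sum, hec, hec]
    simp
  rw [h10] at h11
  have := congrArg (eval (fun _ => (1 : K))) h11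
  simp at this

end algebra

/-- **A symbolic power of a polymatroidal ideal need not be componentwise linear.** Over every
field `K` there is a polymatroidal ideal `I` in six variables (the ideal of the spanning trees of
`K_4`) such that `I^(2)` is not componentwise linear; in particular the statement of the question
is false. -/
theorem result (K : Type*) [Field K] :
    (∃ I : Ideal (MvPolynomial (Fin 6) K), IsPolymatroidal I ∧
      ¬ HasLinearResolution (component (symbolicPower I 2) 4) 4 ∧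
      ¬ ComponentwiseLinear (symbolicPower I 2)) ∧
    ¬ (∀ (n : ℕ) (I : Ideal (MvPolynomial (Fin n) K)), IsPolymatroidal I →
      ∀ k : ℕ, 1 ≤ k → ComponentwiseLinear (symbolicPower I k)) := by
  have h1 := not_linear _ (component_eq (K := K))
  have h2 : ¬ ComponentwiseLinear (symbolicPower (treeIdeal K) 2) := fun h => h1 (h 4)
  exact ⟨⟨treeIdeal K, treeIdeal_polymatroidal, h1, h2⟩,
    fun h => h2 (h 6 _ treeIdeal_polymatroidal 2 (by norm_num))⟩

end Pool.Agent.Results.MP_d6f7e8_al.SpanningTreesK4
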